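import Pool.Agent.Q78.WI.Stm

/-!
# Wishart processes: moments up to order three (E5)
-/

open MeasureTheory ProbabilityTheory Filter Topology Set
open scoped NNReal InnerProductSpace Matrix

namespace Pool.Agent.Q299.WI

open Pool.Agent.Q78.WI

universe u v

/-- The weights and `Yn` are measurable. -/
theorem meas_mul_trace {Ω : Type v} [MeasurableSpace Ω] {d : ℕ}
    {M : Ω → Matrix (Fin d) (Fin d) ℝ} (hM : ∀ i j, Measurable fun ω => M ω i j)
    (h : Matrix (Fin d) (Fin d) ℝ) : Measurable fun ω => (h * M ω).trace := by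
  simp only [Matrix.trace, Matrix.diag, Matrix.mul_apply]
  refine Finset.measurable_sum _ fun i _ => Finset.measurable_sum _ fun j _ => ?_
  exact (hM j i).const_mul _

theorem meas_trace {Ω : Type v} [MeasurableSpace Ω] {d : ℕ}
    {M : Ω → Matrix (Fin d) (Fin d) ℝ} (hM : ∀ i j, Measurable fun ω => M ω i j) :
    Measurable fun ω => (M ω).trace := by
  simp only [Matrix.trace, Matrix.diag]
  exact Finset.measurable_sum _ fun i _ => hM i i

theorem e5 (h2 : S_E2) (h3 : S_E3.{v}) (h4 : S_E4) (h5p : S_E5p) (h5a : S_E5a.{v})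
    (h5b : S_E5b.{v}) : S_E5.{v} := by
  intro Ω _ P _ α d M N hW h hh s κ hs hκ
  obtain ⟨l, -, htr, htr2, htr3, hdet⟩ := h2 d h hh
  obtain ⟨K, δ1, hδ1, hK⟩ := h4 s d l
  obtain ⟨δ2, hδ2, hpd⟩ := h5p d h hh
  have key := h3 Ω P (fun n ω => wt α (M ω) n) (fun n ω => Yn h (M ω) n)
    (fun t => κ * (1 + t • h).det ^ (-(α / 2))) (min δ1 δ2) (|κ| * K) κ
    (κ * (-(s * ∑ i, l i))) (κ * ((s * (∑ i, l i ^ 2) + s ^ 2 * (∑ i, l i) ^ 2) / 2))
    (κ * (-((2 * s * (∑ i, l i ^ 3) + 3 * s ^ 2 * (∑ i, l i) * (∑ i, l i ^ 2)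
        + s ^ 3 * (∑ i, l i) ^ 3) / 6))) (lt_min hδ1 hδ2)
    (fun n => by
      unfold wt
      exact ((((meas_trace hW.measM).const_mul _).neg).exp).const_mul _)
    (fun n => by
      unfold Yn
      exact (meas_mul_trace hW.measM h).const_mul _)
    (fun n ω => by
      unfold wt
      positivity)
    (fun n t ht => h5b Ω P α d M N hW h t (hpd t (ht.trans (min_le_right _ _))) n)
    (fun t ht => by
      have := h5a Ω P α d M N hW h t (hpd t (ht.trans (min_le_right _ _)))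
      rw [← hκ] at this
      exact this)
    (fun t ht => by
      have h1 := hK t (ht.trans (min_le_left _ _))
      rw [← hdet t, hs] at h1
      rw [hs]
      have e : κ * (1 + t • h).det ^ (-(α / 2)) - (κ + κ * (-(α / 2 * ∑ i, l i)) * t
          + κ * ((α / 2 * (∑ i, l i ^ 2) + (α / 2) ^ 2 * (∑ i, l i) ^ 2) / 2) * t ^ 2
          + κ * (-((2 * (α / 2) * (∑ i, l i ^ 3) + 3 * (α / 2) ^ 2 * (∑ i, l i) * (∑ i, l i ^ 2)
              + (α / 2) ^ 3 * (∑ i, l i) ^ 3) / 6)) * t ^ 3)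
          = κ * ((1 + t • h).det ^ (-(α / 2)) - (1 + (-(α / 2 * ∑ i, l i)) * t
          + ((α / 2 * (∑ i, l i ^ 2) + (α / 2) ^ 2 * (∑ i, l i) ^ 2) / 2) * t ^ 2
          + (-((2 * (α / 2) * (∑ i, l i ^ 3) + 3 * (α / 2) ^ 2 * (∑ i, l i) * (∑ i, l i ^ 2)
              + (α / 2) ^ 3 * (∑ i, l i) ^ 3) / 6)) * t ^ 3)) := by ring
      rw [e, abs_mul]
      exact (mul_le_mul_of_nonneg_left h1 (abs_nonneg κ)).trans (le_of_eq (by ring)))
  obtain ⟨k1, k2, k3, k4, k5⟩ := key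
  refine ⟨k1, k2, ?_, ?_, ?_⟩
  · have e : κ * (s * h.trace) = -(κ * (-(s * ∑ i, l i))) := by rw [htr]; ring
    rw [e]; exact k3
  · have e : κ * (s * (h * h).trace + s ^ 2 * h.trace ^ 2)
        = 2 * (κ * ((s * (∑ i, l i ^ 2) + s ^ 2 * (∑ i, l i) ^ 2) / 2)) := by
      rw [htr, htr2]; ring
    rw [e]; exact k4
  · have e : κ * (2 * s * (h * h * h).trace + 3 * s ^ 2 * h.trace * (h * h).trace
        + s ^ 3 * h.trace ^ 3)
        = -(6 * (κ * (-((2 * s * (∑ i, l i ^ 3) + 3 * s ^ 2 * (∑ i, l i) * (∑ i, l i ^ 2)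
        + s ^ 3 * (∑ i, l i) ^ 3) / 6)))) := by
      rw [htr, htr2, htr3]; ring
    rw [e]; exact k5

end Pool.Agent.Q299.WI
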