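import Pool.Agent.Q78.WI.Stm

/-!
# Wishart processes: polarization of the third moment (E6)
-/

open MeasureTheory ProbabilityTheory Filter Topology Set
open scoped NNReal InnerProductSpace Matrix

namespace Pool.Agent.Q299.WI

open Pool.Agent.Q78.WI

universe u v

theorem Yn_add {d : ℕ} (h k M : Matrix (Fin d) (Fin d) ℝ) (n : ℕ) :
    Yn (h + k) M n = Yn h M n + Yn k M n := by
  unfold Yn; rw [Matrix.add_mul, Matrix.trace_add]; ring

theorem Yn_sub {d : ℕ} (h k M : Matrix (Fin d) (Fin d) ℝ) (n : ℕ) :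
    Yn (h - k) M n = Yn h M n - Yn k M n := by
  unfold Yn; rw [Matrix.sub_mul, Matrix.trace_sub]; ring

/-- Reversal of a product of three symmetric matrices. -/
theorem tr_rev {d : ℕ} {a b c : Matrix (Fin d) (Fin d) ℝ} (ha : a.IsHermitian)
    (hb : b.IsHermitian) (hc : c.IsHermitian) : (a * b * c).trace = (c * b * a).trace := by
  have ha' : aᵀ = a := by simpa [Matrix.IsHermitian, Matrix.conjTranspose_eq_transpose_of_trivial] using ha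
  have hb' : bᵀ = b := by simpa [Matrix.IsHermitian, Matrix.conjTranspose_eq_transpose_of_trivial] using hb
  have hc' : cᵀ = c := by simpa [Matrix.IsHermitian, Matrix.conjTranspose_eq_transpose_of_trivial] using hc
  have : (a * b * c)ᵀ = c * b * a := by
    rw [Matrix.transpose_mul, Matrix.transpose_mul, ha', hb', hc', Matrix.mul_assoc]
  rw [← this, Matrix.trace_transpose]

theorem e6 (h5 : S_E5.{v}) : S_E6.{v} := by
  intro Ω _ P _ α d M N hW h₁ h₂ h₃ H1 H2 H3 s κ hs hκ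
  have A := h5 Ω P α d M N hW (h₁ + h₂ + h₃) ((H1.add H2).add H3) s κ hs hκ
  have B := h5 Ω P α d M N hW (h₁ + h₂ - h₃) ((H1.add H2).sub H3) s κ hs hκ
  have C := h5 Ω P α d M N hW (h₁ - h₂ + h₃) ((H1.sub H2).add H3) s κ hs hκ
  have D := h5 Ω P α d M N hW (h₂ - h₁ + h₃) ((H2.sub H1).add H3) s κ hs hκ
  obtain ⟨A1, -, -, -, A5⟩ := A
  obtain ⟨B1, -, -, -, B5⟩ := B
  obtain ⟨C1, -, -, -, C5⟩ := C
  obtain ⟨D1, -, -, -, D5⟩ := D
  have hpt : ∀ n, (fun ω => Yn h₁ (M ω) n * Yn h₂ (M ω) n * Yn h₃ (M ω) n * wt α (M ω) n)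
      = fun ω => (1 / 24 : ℝ) * (Yn (h₁ + h₂ + h₃) (M ω) n ^ 3 * wt α (M ω) n
        - Yn (h₁ + h₂ - h₃) (M ω) n ^ 3 * wt α (M ω) n
        - Yn (h₁ - h₂ + h₃) (M ω) n ^ 3 * wt α (M ω) n
        - Yn (h₂ - h₁ + h₃) (M ω) n ^ 3 * wt α (M ω) n) := by
    intro n; funext ω
    rw [Yn_add, Yn_add, Yn_sub, Yn_add, Yn_add, Yn_sub, Yn_add, Yn_sub]
    ring
  have hA : ∀ n, Integrable (fun ω => Yn (h₁ + h₂ + h₃) (M ω) n ^ 3 * wt α (M ω) n) P :=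
    fun n => A1 n 3 le_rfl
  have hB : ∀ n, Integrable (fun ω => Yn (h₁ + h₂ - h₃) (M ω) n ^ 3 * wt α (M ω) n) P :=
    fun n => B1 n 3 le_rfl
  have hC : ∀ n, Integrable (fun ω => Yn (h₁ - h₂ + h₃) (M ω) n ^ 3 * wt α (M ω) n) P :=
    fun n => C1 n 3 le_rfl
  have hD : ∀ n, Integrable (fun ω => Yn (h₂ - h₁ + h₃) (M ω) n ^ 3 * wt α (M ω) n) P :=
    fun n => D1 n 3 le_rfl
  refine ⟨fun n => ?_, ?_⟩
  · rw [hpt n]
    exact ((((hA n).sub (hB n)).sub (hC n)).sub (hD n)).const_mul _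
  · have hint : ∀ n, ∫ ω, Yn h₁ (M ω) n * Yn h₂ (M ω) n * Yn h₃ (M ω) n * wt α (M ω) n ∂P
        = (1 / 24 : ℝ) * (∫ ω, Yn (h₁ + h₂ + h₃) (M ω) n ^ 3 * wt α (M ω) n ∂P
        - ∫ ω, Yn (h₁ + h₂ - h₃) (M ω) n ^ 3 * wt α (M ω) n ∂P
        - ∫ ω, Yn (h₁ - h₂ + h₃) (M ω) n ^ 3 * wt α (M ω) n ∂P
        - ∫ ω, Yn (h₂ - h₁ + h₃) (M ω) n ^ 3 * wt α (M ω) n ∂P) := by
      intro n
      have hAB : Integrable (fun ω => Yn (h₁ + h₂ + h₃) (M ω) n ^ 3 * wt α (M ω) n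
        - Yn (h₁ + h₂ - h₃) (M ω) n ^ 3 * wt α (M ω) n) P := (hA n).sub (hB n)
      have hABC : Integrable (fun ω => Yn (h₁ + h₂ + h₃) (M ω) n ^ 3 * wt α (M ω) n
        - Yn (h₁ + h₂ - h₃) (M ω) n ^ 3 * wt α (M ω) n
        - Yn (h₁ - h₂ + h₃) (M ω) n ^ 3 * wt α (M ω) n) P := hAB.sub (hC n)
      rw [hpt n, integral_const_mul, integral_sub hABC (hD n), integral_sub hAB (hC n),
        integral_sub (hA n) (hB n)]
    simp_rw [hint]
    have L := (((A5.sub B5).sub C5).sub D5).const_mul (1 / 24 : ℝ)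
    have e : (1 / 24 : ℝ) * (κ * (2 * s * ((h₁ + h₂ + h₃) * (h₁ + h₂ + h₃) * (h₁ + h₂ + h₃)).trace
          + 3 * s ^ 2 * (h₁ + h₂ + h₃).trace * ((h₁ + h₂ + h₃) * (h₁ + h₂ + h₃)).trace
          + s ^ 3 * (h₁ + h₂ + h₃).trace ^ 3)
        - κ * (2 * s * ((h₁ + h₂ - h₃) * (h₁ + h₂ - h₃) * (h₁ + h₂ - h₃)).trace
          + 3 * s ^ 2 * (h₁ + h₂ - h₃).trace * ((h₁ + h₂ - h₃) * (h₁ + h₂ - h₃)).trace
          + s ^ 3 * (h₁ + h₂ - h₃).trace ^ 3)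
        - κ * (2 * s * ((h₁ - h₂ + h₃) * (h₁ - h₂ + h₃) * (h₁ - h₂ + h₃)).trace
          + 3 * s ^ 2 * (h₁ - h₂ + h₃).trace * ((h₁ - h₂ + h₃) * (h₁ - h₂ + h₃)).trace
          + s ^ 3 * (h₁ - h₂ + h₃).trace ^ 3)
        - κ * (2 * s * ((h₂ - h₁ + h₃) * (h₂ - h₁ + h₃) * (h₂ - h₁ + h₃)).trace
          + 3 * s ^ 2 * (h₂ - h₁ + h₃).trace * ((h₂ - h₁ + h₃) * (h₂ - h₁ + h₃)).trace
          + s ^ 3 * (h₂ - h₁ + h₃).trace ^ 3))
        = κ * (2 * s * (h₁ * h₂ * h₃).trace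
          + s ^ 2 * (h₁.trace * (h₂ * h₃).trace + h₂.trace * (h₁ * h₃).trace
            + h₃.trace * (h₁ * h₂).trace)
          + s ^ 3 * (h₁.trace * h₂.trace * h₃.trace)) := by
      have c1 : (h₃ * h₂ * h₁).trace = (h₁ * h₂ * h₃).trace := tr_rev H3 H2 H1
      have c2 : (h₂ * h₃ * h₁).trace = (h₁ * h₂ * h₃).trace := by
        rw [Matrix.trace_mul_comm, Matrix.mul_assoc]
      have c3 : (h₃ * h₁ * h₂).trace = (h₁ * h₂ * h₃).trace := by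
        rw [Matrix.mul_assoc, Matrix.trace_mul_comm]
      have c4 : (h₁ * h₃ * h₂).trace = (h₁ * h₂ * h₃).trace := by
        rw [tr_rev H1 H3 H2, c2]
      have c5 : (h₂ * h₁ * h₃).trace = (h₁ * h₂ * h₃).trace := by
        rw [tr_rev H2 H1 H3, c3]
      have d1 : (h₂ * h₁).trace = (h₁ * h₂).trace := Matrix.trace_mul_comm _ _
      have d2 : (h₃ * h₁).trace = (h₁ * h₃).trace := Matrix.trace_mul_comm _ _
      have d3 : (h₃ * h₂).trace = (h₂ * h₃).trace := Matrix.trace_mul_comm _ _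
      simp only [Matrix.add_mul, Matrix.mul_add, Matrix.sub_mul, Matrix.mul_sub,
        Matrix.trace_add, Matrix.trace_sub, c1, c2, c3, c4, c5, d1, d2, d3]
      ring
    rw [← e]
    exact L

end Pool.Agent.Q299.WI
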