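import Pool.Agent.Q78.WI.Stm

/-!
# Wishart processes: traces of the matrices `(Eᵢⱼ + Eⱼᵢ)/2` (E7a)
-/

open MeasureTheory ProbabilityTheory Filter Topology Set
open scoped NNReal InnerProductSpace Matrix

namespace Pool.Agent.Q299.WI

open Pool.Agent.Q78.WI

universe u v

/-- Kronecker delta. -/
noncomputable def kd {d : ℕ} (i j : Fin d) : ℝ := if i = j then 1 else 0

theorem hij_apply {d : ℕ} (i j a b : Fin d) :
    (hij i j : Matrix (Fin d) (Fin d) ℝ) a b = (kd i a * kd j b + kd j a * kd i b) / 2 := by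
  have e : ∀ x y z w : Fin d, (if x = z ∧ y = w then (1 : ℝ) else 0) = kd x z * kd y w := by
    intro x y z w
    unfold kd
    by_cases h1 : x = z
    · by_cases h2 : y = w
      · rw [if_pos ⟨h1, h2⟩, if_pos h1, if_pos h2]; norm_num
      · rw [if_neg (fun h => h2 h.2), if_neg h2, mul_zero]
    · rw [if_neg (fun h => h1 h.1), if_neg h1, zero_mul]
  unfold hij
  rw [Matrix.smul_apply, Matrix.add_apply, Matrix.single_apply, Matrix.single_apply, e, e,
    smul_eq_mul]
  ring

theorem sum_kd {d : ℕ} (i : Fin d) (f : Fin d → ℝ) : ∑ a, kd i a * f a = f i := by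
  unfold kd; simp

theorem sum_kd' {d : ℕ} (i : Fin d) (f : Fin d → ℝ) : ∑ a, f a * kd i a = f i := by
  unfold kd; simp

theorem trace_hij_mul {d : ℕ} (i j : Fin d) (M : Matrix (Fin d) (Fin d) ℝ) :
    (hij i j * M).trace = (M i j + M j i) / 2 := by
  have : (hij i j * M).trace
      = (∑ a, kd i a * (∑ b, kd j b * M b a) + ∑ a, kd j a * (∑ b, kd i b * M b a)) / 2 := by
    simp only [Matrix.trace, Matrix.diag, Matrix.mul_apply, hij_apply]
    rw [← Finset.sum_add_distrib, Finset.sum_div]
    refine Finset.sum_congr rfl fun a _ => ?_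
    rw [Finset.mul_sum, Finset.mul_sum, ← Finset.sum_add_distrib, Finset.sum_div]
    refine Finset.sum_congr rfl fun b _ => ?_
    ring
  rw [this]
  simp only [sum_kd]
  ring

theorem trace_hij {d : ℕ} (i j : Fin d) : (hij i j : Matrix (Fin d) (Fin d) ℝ).trace = kd i j := by
  have := trace_hij_mul i j (1 : Matrix (Fin d) (Fin d) ℝ)
  rw [Matrix.mul_one] at this
  rw [this]
  unfold kd
  rw [Matrix.one_apply, Matrix.one_apply]
  by_cases h : i = j
  · subst h; simp
  · simp [h, Ne.symm h]

theorem kd_comm {d : ℕ} (i j : Fin d) : kd i j = kd j i := by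
  unfold kd; simp [eq_comm]

theorem kd_self {d : ℕ} (i : Fin d) : kd i i = 1 := by unfold kd; simp

theorem kd_sq {d : ℕ} (i j : Fin d) : kd i j * kd i j = kd i j := by
  unfold kd; split_ifs <;> simp

theorem kd_tri {d : ℕ} (i j k : Fin d) : kd i j * kd j k * kd i k = kd i j * kd j k := by
  unfold kd; split_ifs <;> simp_all

/-- Entries of a product of two `hij`. -/
theorem hij_mul_apply {d : ℕ} (j k i a b : Fin d) :
    (hij j k * hij k i : Matrix (Fin d) (Fin d) ℝ) a b
      = (kd j a * (kd i b + kd k i * kd k b)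
        + kd k a * (kd j k * kd i b + kd j i * kd k b)) / 4 := by
  rw [Matrix.mul_apply]
  simp only [hij_apply]
  have : ∀ c, (kd j a * kd k c + kd k a * kd j c) / 2 * ((kd k c * kd i b + kd i c * kd k b) / 2)
      = (kd k c * (kd j a * (kd k c * kd i b + kd i c * kd k b))
        + kd j c * (kd k a * (kd k c * kd i b + kd i c * kd k b))) / 4 := by
    intro c; ring
  simp only [this]
  rw [← Finset.sum_div, Finset.sum_add_distrib, sum_kd, sum_kd]
  rw [kd_self, kd_comm i k, kd_comm k j, kd_comm i j]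
  ring

theorem tr3 {d : ℕ} (i j k : Fin d) : (hij i j * hij j k * hij k i).trace
    = (1 + kd i j + kd j k + kd i k + 4 * (kd i j * kd j k)) / 8 := by
  rw [Matrix.mul_assoc, trace_hij_mul, hij_mul_apply, hij_mul_apply]
  rw [kd_self, kd_self]
  rw [kd_comm j i, kd_comm k i, kd_comm k j]
  have h1 := kd_sq i j
  have h2 := kd_sq j k
  have h3 := kd_sq i k
  have h4 := kd_tri i j k
  have h5 : kd i j * kd i k = kd i j * kd j k := by
    unfold kd; split_ifs <;> simp_all
  have h6 : kd j k * kd i k = kd i j * kd j k := by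
    unfold kd; split_ifs <;> simp_all
  nlinarith [h1, h2, h3, h4, h5, h6]

theorem tr2 {d : ℕ} (j k i : Fin d) : (hij j k * hij k i : Matrix (Fin d) (Fin d) ℝ).trace
    = (kd j i + kd j k * kd k i) / 2 := by
  rw [trace_hij_mul, hij_apply, hij_apply, kd_self]
  rw [kd_comm i j, kd_comm i k, kd_comm k j]
  ring

theorem sum_one {d : ℕ} : ∑ _i : Fin d, (1 : ℝ) = d := by simp

theorem sum_kd1 {d : ℕ} (i : Fin d) : ∑ j, kd i j = 1 := by
  have := sum_kd i (fun _ => (1 : ℝ)); simpa using this

theorem sum_kd2 {d : ℕ} (i : Fin d) : ∑ j, kd j i = 1 := by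
  simp only [kd_comm _ i]; exact sum_kd1 i

theorem sum_c {d : ℕ} (c : ℝ) : ∑ _i : Fin d, c = d * c := by simp

theorem e7a : S_E7a := by
  intro d
  refine ⟨?_, ?_, ?_, ?_, ?_, ?_, ?_⟩
  · intro i j
    ext a b
    rw [Matrix.conjTranspose_apply, hij_apply, hij_apply]
    simp only [star_trivial]
    ring
  · simp only [tr3]
    have h : ∀ i j : Fin d, ∑ k, (1 + kd i j + kd j k + kd i k + 4 * (kd i j * kd j k)) / 8
        = ((d : ℝ) + 2) / 8 + (((d : ℝ) + 4) / 8) * kd i j := by
      intro i j
      rw [← Finset.sum_div, Finset.sum_add_distrib, Finset.sum_add_distrib,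
        Finset.sum_add_distrib, Finset.sum_add_distrib, sum_c, sum_c, sum_kd1, sum_kd1,
        ← Finset.mul_sum, ← Finset.mul_sum, sum_kd1]
      ring
    simp only [h]
    have h' : ∀ i : Fin d, ∑ j, (((d : ℝ) + 2) / 8 + (((d : ℝ) + 4) / 8) * kd i j)
        = ((d : ℝ) ^ 2 + 3 * d + 4) / 8 := by
      intro i
      rw [Finset.sum_add_distrib, sum_c, ← Finset.mul_sum, sum_kd1]
      ring
    simp only [h']
    rw [sum_c]
    ring
  · have h : ∀ i j k : Fin d, ((hij i j).trace * (hij j k * hij k i).trace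
        + (hij j k).trace * (hij i j * hij k i).trace
        + (hij k i).trace * (hij i j * hij j k).trace : ℝ)
        = (kd i j + kd j k + kd i k + 3 * (kd i j * kd j k)) / 2 := by
      intro i j k
      rw [Matrix.trace_mul_comm (hij i j) (hij k i)]
      simp only [tr2, trace_hij]
      rw [kd_comm j i, kd_comm k i, kd_comm k j]
      have h1 := kd_sq i j
      have h2 := kd_sq j k
      have h3 := kd_sq i k
      have h4 := kd_tri i j k
      linear_combination (1 / 2) * h1 + (1 / 2) * h2 + (1 / 2) * h3 + (3 / 2) * h4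
    simp only [h]
    have h' : ∀ i j : Fin d, ∑ k, (kd i j + kd j k + kd i k + 3 * (kd i j * kd j k)) / 2
        = 1 + (((d : ℝ) + 3) / 2) * kd i j := by
      intro i j
      rw [← Finset.sum_div, Finset.sum_add_distrib, Finset.sum_add_distrib,
        Finset.sum_add_distrib, sum_c, sum_kd1, sum_kd1,
        ← Finset.mul_sum, ← Finset.mul_sum, sum_kd1]
      ring
    simp only [h']
    have h'' : ∀ i : Fin d, ∑ j, (1 + (((d : ℝ) + 3) / 2) * kd i j)
        = (3 * (d : ℝ) + 3) / 2 := by
      intro i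
      rw [Finset.sum_add_distrib, sum_c, ← Finset.mul_sum, sum_kd1]
      ring
    simp only [h'']
    rw [sum_c]
    ring
  · simp only [trace_hij]
    have h : ∀ i j k : Fin d, kd i j * kd j k * kd k i = kd i j * kd j k := by
      intro i j k
      rw [kd_comm k i]; exact kd_tri i j k
    simp only [h]
    simp only [← Finset.mul_sum, sum_kd1, mul_one, sum_c]
  · have h : ∀ i j : Fin d, ((hij i j * hij i j).trace : ℝ) = (1 + kd i j) / 2 := by
      intro i j
      rw [trace_hij_mul, hij_apply, hij_apply, kd_self, kd_self, kd_comm j i]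
      have h1 := kd_sq i j
      linear_combination (1 / 2) * h1
    simp only [h]
    have h' : ∀ i : Fin d, ∑ j, (1 + kd i j) / 2 = ((d : ℝ) + 1) / 2 := by
      intro i
      rw [← Finset.sum_div, Finset.sum_add_distrib, sum_c, sum_kd1]
      ring
    simp only [h']
    rw [sum_c]
    ring
  · simp only [trace_hij]
    have h : ∀ i j : Fin d, kd i j ^ 2 = kd i j := by
      intro i j; rw [sq]; exact kd_sq i j
    simp only [h, sum_kd1, sum_c, mul_one]
  · intro M hM i j
    rw [trace_hij_mul]
    have := hM.apply i j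
    simp only [star_trivial] at this
    rw [this]; ring

end Pool.Agent.Q299.WI
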